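import Pool.Agent.H6.Mazur

namespace Pool.Agent.Results.MP_c030b7_lc.Exists
open Pool.Agent.H6.Mazur

theorem result : ∃ M : Set (ℝ × ℝ), IsMaz M ∧ ∀ θ : ℝ, ∃ f g : ℝ → ℝ, IsHamel f ∧ IsHamel g ∧
    rot θ '' M = graph f ∪ graph g := main

end Pool.Agent.Results.MP_c030b7_lc.Exists
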